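import Pool.Agent.Y245.SC.Stm3

/-! Project SC: monodromy around an isolated singularity (job 7447, task RES). -/

set_option autoImplicit false

open Complex MeasureTheory Metric Set Filter Topology ComplexConjugate
open Pool.Agent.Y245.SC

namespace Pool.Agent.Y448.SC

/-- the kernel with a free second parameter -/
noncomputable def kz (a : ℝ) (φ : ℂ → ℂ) (ω z ξ : ℂ) : ℂ :=
  ξ ^ 2 * kap a (ξ * (φ (exp ω) - z)) * (deriv φ (exp ω) * exp ω)

theorem ker_eq (a : ℝ) (φ : ℂ → ℂ) (ω ω0 ξ : ℂ) : ker a φ ω ω0 ξ = kz a φ ω (φ (exp ω0)) ξ := rfl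

theorem exp_mem {ω : ℂ} {r : ℝ} (h : ω.re < r) : exp ω ∈ ball (0 : ℂ) (Real.exp r) := by
  rw [mem_ball_zero_iff, Complex.norm_exp]
  exact Real.exp_lt_exp.mpr h

theorem exp_mem' {ω : ℂ} (h : ω.re < 0) : exp ω ∈ ball (0 : ℂ) 1 := by
  have := exp_mem h
  rwa [Real.exp_zero] at this

theorem fc_diff {φ : ℂ → ℂ} {ℓ : ℝ} (hφ : DifferentiableOn ℂ φ (ball 0 (Real.exp ℓ)))
    {ω : ℂ} (h : -ℓ < ω.re) : DifferentiableAt ℂ (Fc φ) ω := by
  have h1 : DifferentiableAt ℂ (fun z => φ (exp (-z))) (conj ω) := by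
    have h2 : exp (-(conj ω)) ∈ ball (0 : ℂ) (Real.exp ℓ) := by
      refine exp_mem ?_
      rw [neg_re, conj_re]
      linarith
    have h3 : DifferentiableAt ℂ φ (exp (-(conj ω))) :=
      hφ.differentiableAt (isOpen_ball.mem_nhds h2)
    exact DifferentiableAt.comp (conj ω) h3 (by fun_prop)
  have h4 := h1.conj_conj
  rw [Complex.conj_conj] at h4
  exact h4

theorem strip_open (ℓ : ℝ) : IsOpen (Strip ℓ) :=
  (isOpen_lt continuous_const continuous_re).inter (isOpen_lt continuous_re continuous_const)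

theorem strip_convex (ℓ : ℝ) : Convex ℝ (Strip ℓ) :=
  (convex_halfSpace_re_gt _).inter (convex_halfSpace_re_lt _)

theorem kz_diff {φ : ℂ → ℂ} {a ℓ : ℝ} (hk : Differentiable ℂ (kap a))
    (hφ : DifferentiableOn ℂ φ (ball 0 (Real.exp ℓ))) {p : ℂ × ℂ × ℂ} (h1 : p.1.re < ℓ) :
    DifferentiableAt ℂ (fun p : ℂ × ℂ × ℂ => kz a φ p.1 p.2.1 p.2.2) p := by
  have e1 := isOpen_ball.mem_nhds (exp_mem h1)
  have d1 : DifferentiableAt ℂ (fun p : ℂ × ℂ × ℂ => φ (exp p.1)) p :=
    DifferentiableAt.comp p (hφ.differentiableAt e1) (by fun_prop)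
  have d2 : DifferentiableAt ℂ (fun p : ℂ × ℂ × ℂ => p.2.1) p := by fun_prop
  have d3 : DifferentiableAt ℂ (fun p : ℂ × ℂ × ℂ => deriv φ (exp p.1)) p :=
    DifferentiableAt.comp p ((hφ.deriv isOpen_ball).differentiableAt e1) (by fun_prop)
  have d5 : DifferentiableAt ℂ (fun p : ℂ × ℂ × ℂ => p.2.2) p := by fun_prop
  have d4 : DifferentiableAt ℂ
      (fun p : ℂ × ℂ × ℂ => kap a (p.2.2 * (φ (exp p.1) - p.2.1))) p :=
    DifferentiableAt.comp p (hk _) (d5.mul (d1.sub d2))
  have d6 : DifferentiableAt ℂ (fun p : ℂ × ℂ × ℂ => exp p.1) p := by fun_prop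
  exact ((d5.pow 2).mul d4).mul (d3.mul d6)

/-- parametric integrals of the kernel -/
theorem par_ker (hP : S_PAR) {φ : ℂ → ℂ} {a ℓ : ℝ} (hk : Differentiable ℂ (kap a))
    (hφ : DifferentiableOn ℂ φ (ball 0 (Real.exp ℓ))) {U : Set ℂ} (hU : IsOpen U)
    (p ξ w : ℂ → ℝ → ℂ) (q : ℂ → ℂ)
    (hp : ∀ s ∈ U, ∀ t ∈ Icc (0 : ℝ) 1, (p s t).re < ℓ)
    (hqd : ∀ s ∈ U, DifferentiableAt ℂ q s)
    (hpc : ∀ s ∈ U, ∀ t ∈ Icc (0 : ℝ) 1, ContinuousAt (fun x : ℂ × ℝ => p x.1 x.2) (s, t))
    (hξc : ∀ s ∈ U, ∀ t ∈ Icc (0 : ℝ) 1, ContinuousAt (fun x : ℂ × ℝ => ξ x.1 x.2) (s, t))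
    (hwc : ∀ s ∈ U, ∀ t ∈ Icc (0 : ℝ) 1, ContinuousAt (fun x : ℂ × ℝ => w x.1 x.2) (s, t))
    (hpd : ∀ s ∈ U, ∀ t ∈ Icc (0 : ℝ) 1, DifferentiableAt ℂ (fun s => p s t) s)
    (hξd : ∀ s ∈ U, ∀ t ∈ Icc (0 : ℝ) 1, DifferentiableAt ℂ (fun s => ξ s t) s)
    (hwd : ∀ s ∈ U, ∀ t ∈ Icc (0 : ℝ) 1, DifferentiableAt ℂ (fun s => w s t) s) :
    DifferentiableOn ℂ (fun s => ∫ t in (0 : ℝ)..1, kz a φ (p s t) (q s) (ξ s t) * w s t) U := by
  refine hP U (fun s t => kz a φ (p s t) (q s) (ξ s t) * w s t) hU ?_ ?_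
  · rintro ⟨s, t⟩ ⟨hs, ht⟩
    have h8 : ContinuousAt (fun p : ℂ × ℂ × ℂ => kz a φ p.1 p.2.1 p.2.2) (p s t, q s, ξ s t) :=
      (kz_diff hk hφ (p := (p s t, q s, ξ s t)) (hp s hs t ht)).continuousAt
    have hq' : ContinuousAt (fun x : ℂ × ℝ => q x.1) (s, t) :=
      ContinuousAt.comp (f := fun x : ℂ × ℝ => x.1) (x := (s, t)) (g := q) (hqd s hs).continuousAt
        continuousAt_fst
    have h9 : ContinuousAt (fun x : ℂ × ℝ => (p x.1 x.2, q x.1, ξ x.1 x.2)) (s, t) :=
      (hpc s hs t ht).prodMk (hq'.prodMk (hξc s hs t ht))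
    have h10 := ContinuousAt.comp (f := fun x : ℂ × ℝ => (p x.1 x.2, q x.1, ξ x.1 x.2))
      (x := (s, t)) h8 h9
    exact (h10.mul (hwc s hs t ht)).continuousWithinAt
  · intro t ht s hs
    have h8 : DifferentiableAt ℂ (fun p : ℂ × ℂ × ℂ => kz a φ p.1 p.2.1 p.2.2)
        (p s t, q s, ξ s t) := kz_diff hk hφ (p := (p s t, q s, ξ s t)) (hp s hs t ht)
    have h9 : DifferentiableAt ℂ (fun s => (p s t, q s, ξ s t)) s :=
      (hpd s hs t ht).prodMk ((hqd s hs).prodMk (hξd s hs t ht))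
    exact ((DifferentiableAt.comp (f := fun s => (p s t, q s, ξ s t)) s h8 h9).mul
      (hwd s hs t ht)).differentiableWithinAt

/-- the circle as a function of a complex parameter -/
noncomputable def cc (p : ℂ) (R : ℝ) (s : ℂ) : ℂ := p + R * exp (s * I)

/-- its derivative -/
noncomputable def cd (R : ℝ) (s : ℂ) : ℂ := R * exp (s * I) * I

theorem cc_deriv (p : ℂ) (R : ℝ) (s : ℂ) : HasDerivAt (cc p R) (cd R s) s := by
  have h := ((hasDerivAt_id s).mul_const I).cexp
  have h2 := (h.const_mul (R : ℂ)).const_add p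
  refine h2.congr_deriv ?_
  simp only [cd, id, one_mul]
  ring

theorem cd_diff (R : ℝ) : Differentiable ℂ (cd R) := by
  unfold cd
  fun_prop

theorem cc_per (p : ℂ) (R : ℝ) (s : ℂ) : cc p R (s + 2 * Real.pi) = cc p R s := by
  unfold cc
  rw [add_mul, exp_add, exp_two_pi_mul_I, mul_one]

theorem cd_per (R : ℝ) (s : ℂ) : cd R (s + 2 * Real.pi) = cd R s := by
  unfold cd
  rw [add_mul, exp_add, exp_two_pi_mul_I, mul_one]

/-- the half plane of the parameters -/
def UU : Set ℂ := {s : ℂ | -Real.log 2 < s.im}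

theorem uu_open : IsOpen UU := isOpen_lt continuous_const continuous_im

theorem uu_convex : Convex ℝ UU := convex_halfSpace_im_gt _

theorem uu_real (x : ℝ) : (x : ℂ) ∈ UU := by
  have h : 0 < Real.log 2 := Real.log_pos (by norm_num)
  show -Real.log 2 < (x : ℂ).im
  rw [ofReal_im]
  linarith

theorem uu_mul {s : ℂ} (hs : s ∈ UU) {t : ℝ} (ht : t ∈ Icc (0 : ℝ) 1) : (0 : ℂ) + t * (s - 0) ∈ UU := by
  have h : 0 < Real.log 2 := Real.log_pos (by norm_num)
  have hs' : -Real.log 2 < s.im := hs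
  show -Real.log 2 < ((0 : ℂ) + t * (s - 0)).im
  have e : ((0 : ℂ) + t * (s - 0)).im = t * s.im := by simp
  rw [e]
  rcases le_total 0 s.im with h1 | h1
  · have := mul_nonneg ht.1 h1
    linarith
  · have := mul_le_mul_of_nonpos_right ht.2 h1
    linarith

theorem cc_norm (p : ℂ) {R : ℝ} (hR : 0 ≤ R) (s : ℂ) :
    ‖cc p R s - p‖ = R * Real.exp (-s.im) := by
  unfold cc
  rw [add_sub_cancel_left, norm_mul, Complex.norm_real, Real.norm_of_nonneg hR, Complex.norm_exp]
  simp

theorem cc_mem (p : ℂ) {ρ : ℝ} (hρ : 0 < ρ) {s : ℂ} (hs : s ∈ UU) :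
    cc p (ρ / 2) s ∈ ball p ρ \ {p} := by
  have h := cc_norm p (R := ρ / 2) (by positivity) s
  have hs' : -Real.log 2 < s.im := hs
  have h3 := Real.exp_pos (-s.im)
  refine ⟨?_, ?_⟩
  · rw [mem_ball_iff_norm, h]
    have h2 : Real.exp (-s.im) < 2 := by
      rw [← Real.lt_log_iff_exp_lt (by norm_num)]
      linarith
    nlinarith
  · intro hc
    rw [mem_singleton_iff.1 hc, sub_self, norm_zero] at h
    have : 0 < ρ / 2 * Real.exp (-s.im) := by positivity
    linarith

theorem pt_re (ℓ y1 : ℝ) : (pt ℓ y1).re = -ℓ := by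
  unfold pt
  simp

theorem ball_re {ℓ y1 ρ : ℝ} (hρ : ρ < ℓ) {ω : ℂ} (h : ω ∈ ball (pt ℓ y1) ρ) : ω.re < 0 := by
  rw [mem_ball_iff_norm] at h
  have h1 := (abs_le.1 (Complex.abs_re_le_norm (ω - pt ℓ y1))).2
  rw [sub_re, pt_re] at h1
  linarith

theorem cc_re {ℓ y1 ρ : ℝ} (hρ : 0 < ρ) {x : ℝ} (hx : |x| < Real.pi / 2) :
    -ℓ < (cc (pt ℓ y1) (ρ / 2) x).re := by
  have h1 : 0 < Real.cos x := Real.cos_pos_of_mem_Ioo (abs_lt.1 hx)
  unfold cc
  rw [add_re, pt_re]
  have e : (((ρ / 2 : ℝ) : ℂ) * exp ((x : ℂ) * I)).re = ρ / 2 * Real.cos x := by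
    rw [re_ofReal_mul, exp_ofReal_mul_I_re]
  rw [e]
  have : 0 < ρ / 2 * Real.cos x := by positivity
  linarith

/-- the kernel along the circle -/
noncomputable def hh (a : ℝ) (φ X : ℂ → ℂ) (b p : ℂ) (R : ℝ) (z t : ℂ) : ℂ :=
  kz a φ (cc p R t) z (X (cc p R t) - b) * cd R t

theorem hh_per (a : ℝ) (φ X : ℂ → ℂ) (b p : ℂ) (R : ℝ) (z t : ℂ) :
    hh a φ X b p R z (t + 2 * Real.pi) = hh a φ X b p R z t := by
  unfold hh
  rw [cc_per, cd_per]

theorem circle_eq (a : ℝ) (φ X : ℂ → ℂ) (b p : ℂ) (R : ℝ) (z : ℂ) :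
    (∮ ω in C(p, R), (X ω - b) ^ 2 * kap a ((X ω - b) * (φ (exp ω) - z)) *
      (deriv φ (exp ω) * exp ω)) = ∫ θ in (0 : ℝ)..2 * Real.pi, hh a φ X b p R z θ := by
  unfold circleIntegral
  refine intervalIntegral.integral_congr fun θ _ => ?_
  have e : circleMap p R θ = cc p R θ := rfl
  simp only [deriv_circleMap, smul_eq_mul, e]
  unfold hh kz cd circleMap
  ring

theorem seg_circle (a : ℝ) (φ X : ℂ → ℂ) (b p : ℂ) (R : ℝ) (z : ℂ) (s : ℝ) :
    seg (hh a φ X b p R z) s ((s : ℂ) + 2 * Real.pi) =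
      ∫ θ in (0 : ℝ)..2 * Real.pi, hh a φ X b p R z θ := by
  have hper : Function.Periodic (fun θ : ℝ => hh a φ X b p R z (θ : ℂ)) (2 * Real.pi) := by
    intro θ
    have := hh_per a φ X b p R z (θ : ℂ)
    push_cast
    exact this
  have e1 := hper.intervalIntegral_add_eq 0 s
  rw [zero_add] at e1
  rw [e1]
  have e2 := intervalIntegral.integral_comp_add_mul (a := 0) (b := 1)
    (fun θ : ℝ => hh a φ X b p R z (θ : ℂ)) (c := 2 * Real.pi) (by positivity) s
  rw [mul_zero, mul_one, add_zero] at e2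
  unfold seg
  have e3 : ∀ t : ℝ, hh a φ X b p R z ((s : ℂ) + t * ((s : ℂ) + 2 * Real.pi - s)) *
      ((s : ℂ) + 2 * Real.pi - s) =
      (2 * Real.pi : ℂ) * hh a φ X b p R z ((s + 2 * Real.pi * t : ℝ) : ℂ) := by
    intro t
    have : (s : ℂ) + t * ((s : ℂ) + 2 * Real.pi - s) = ((s + 2 * Real.pi * t : ℝ) : ℂ) := by
      push_cast
      ring
    rw [this]
    ring
  simp only [e3]
  rw [intervalIntegral.integral_const_mul, e2, real_smul]
  push_cast
  have hpi : (2 * Real.pi : ℂ) ≠ 0 := by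
    have : (Real.pi : ℂ) ≠ 0 := by exact_mod_cast Real.pi_ne_zero
    simp [this]
  rw [← mul_assoc, mul_inv_cancel₀ hpi, one_mul]

theorem res : S_RES := by
  intro hK hSeg hPar φ X G a ℓ y1 ρ b ha hℓ hρ hρℓ hφ hinj hG hV hX hXF z0
  have hkap := (hK a ha.le).1
  obtain ⟨p, hp⟩ : ∃ p, p = pt ℓ y1 := ⟨_, rfl⟩
  rw [← hp] at hX hXF ⊢
  obtain ⟨R, hR⟩ : ∃ R : ℝ, R = ρ / 2 := ⟨_, rfl⟩
  rw [← hR]
  have hR0 : 0 < R := by rw [hR]; positivity
  have hcm : ∀ s ∈ UU, cc p R s ∈ ball p ρ \ {p} := fun s hs => by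
    rw [hR]
    exact cc_mem p hρ hs
  have hre : ∀ ω ∈ ball p ρ, ω.re < 0 := fun ω hω => by
    rw [hp] at hω
    exact ball_re hρℓ hω
  have hcre : ∀ s ∈ UU, (cc p R s).re < 0 := fun s hs => hre _ (hcm s hs).1
  have hcc : ∀ s, DifferentiableAt ℂ (cc p R) s := fun s => (cc_deriv p R s).differentiableAt
  have hXd : ∀ s ∈ UU, DifferentiableAt ℂ X (cc p R s) := fun s hs =>
    hX.differentiableAt ((isOpen_ball.sdiff isClosed_singleton).mem_nhds (hcm s hs))
  have hXc : ∀ s ∈ UU, DifferentiableAt ℂ (fun s => X (cc p R s)) s := fun s hs =>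
    DifferentiableAt.comp s (hXd s hs) (hcc s)
  have hψ : ∀ s ∈ UU, DifferentiableAt ℂ (fun s => φ (exp (cc p R s))) s := by
    intro s hs
    have h1 : DifferentiableAt ℂ φ (exp (cc p R s)) :=
      hφ.differentiableAt (isOpen_ball.mem_nhds (exp_mem ((hcre s hs).trans hℓ)))
    exact DifferentiableAt.comp (f := fun s => exp (cc p R s)) s h1 (hcc s).cexp
  have hGc : ∀ s ∈ UU, DifferentiableAt ℂ (fun s => G (exp (cc p R s))) s := by
    intro s hs
    have h1 : DifferentiableAt ℂ G (exp (cc p R s)) :=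
      hG.differentiableAt (isOpen_ball.mem_nhds (exp_mem' (hcre s hs)))
    exact DifferentiableAt.comp (f := fun s => exp (cc p R s)) s h1 (hcc s).cexp
  have h0U : (0 : ℂ) ∈ UU := by
    have := uu_real 0
    rwa [ofReal_zero] at this
  -- the kernel along the circle is holomorphic
  have hhd : ∀ z : ℂ, DifferentiableOn ℂ (hh a φ X b p R z) UU := by
    intro z t ht
    have h1 : DifferentiableAt ℂ (fun q : ℂ × ℂ × ℂ => kz a φ q.1 q.2.1 q.2.2)
        (cc p R t, z, X (cc p R t) - b) :=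
      kz_diff hkap hφ (p := (cc p R t, z, X (cc p R t) - b)) ((hcre t ht).trans hℓ)
    have h2 : DifferentiableAt ℂ (fun t => (cc p R t, z, X (cc p R t) - b)) t :=
      (hcc t).prodMk ((differentiableAt_const z).prodMk ((hXc t ht).sub_const b))
    exact ((DifferentiableAt.comp (f := fun t => (cc p R t, z, X (cc p R t) - b)) t h1 h2).mul
      (cd_diff R t)).differentiableWithinAt
  -- the function which vanishes
  obtain ⟨A, hA⟩ : ∃ A : ℂ → ℂ, A = fun s => X (cc p R s) - b - G (exp (cc p R s)) -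
      seg (fun ω => kz a φ ω (φ (exp (cc p R s))) (Fc φ ω - b)) 0 (cc p R 0) -
      seg (hh a φ X b p R (φ (exp (cc p R s)))) 0 s := ⟨_, rfl⟩
  have hc0 : ∀ t ∈ Icc (0 : ℝ) 1, (0 : ℂ) + t * (cc p R 0 - 0) ∈ Strip ℓ := by
    intro t ht
    have h1 : -ℓ < (cc p R 0).re := by
      have := cc_re (ℓ := ℓ) (y1 := y1) hρ (x := 0) (by simpa using Real.pi_pos)
      rw [ofReal_zero, ← hp, ← hR] at this
      exact this
    have h2 := hcre 0 h0U
    have e : ((0 : ℂ) + t * (cc p R 0 - 0)).re = t * (cc p R 0).re := by simp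
    refine ⟨?_, ?_⟩
    · rw [e]
      nlinarith [ht.1, ht.2]
    · rw [e]
      nlinarith [ht.1, ht.2]
  have hAd : DifferentiableOn ℂ A UU := by
    rw [hA]
    refine DifferentiableOn.sub (DifferentiableOn.sub (DifferentiableOn.sub
      (DifferentiableOn.sub (fun s hs => (hXc s hs).differentiableWithinAt)
        (differentiableOn_const b)) (fun s hs => (hGc s hs).differentiableWithinAt)) ?_) ?_
    · unfold seg
      refine par_ker hPar hkap hφ uu_open (fun _ t => (0 : ℂ) + t * (cc p R 0 - 0))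
        (fun _ t => Fc φ ((0 : ℂ) + t * (cc p R 0 - 0)) - b) (fun _ _ => cc p R 0 - 0)
        (fun s => φ (exp (cc p R s))) (fun s _ t ht => (hc0 t ht).2) hψ ?_ ?_ ?_ ?_ ?_ ?_
      · intro s _ t _
        fun_prop
      · intro s _ t ht
        have h1 : ContinuousAt (Fc φ) ((0 : ℂ) + t * (cc p R 0 - 0)) :=
          (fc_diff hφ (hc0 t ht).1).continuousAt
        have h2 : ContinuousAt (fun x : ℂ × ℝ => (0 : ℂ) + x.2 * (cc p R 0 - 0)) (s, t) := by
          fun_prop
        exact (ContinuousAt.comp (f := fun x : ℂ × ℝ => (0 : ℂ) + x.2 * (cc p R 0 - 0))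
          (x := (s, t)) h1 h2).sub continuousAt_const
      · intro s _ t _
        exact continuousAt_const
      · intro s _ t _
        exact differentiableAt_const _
      · intro s _ t _
        exact differentiableAt_const _
      · intro s _ t _
        exact differentiableAt_const _
    · unfold seg hh
      have := par_ker hPar hkap hφ uu_open (fun s t => cc p R ((0 : ℂ) + t * (s - 0)))
        (fun s t => X (cc p R ((0 : ℂ) + t * (s - 0))) - b)
        (fun s t => cd R ((0 : ℂ) + t * (s - 0)) * (s - 0))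
        (fun s => φ (exp (cc p R s)))
        (fun s hs t ht => (hcre _ (uu_mul hs ht)).trans hℓ) hψ ?_ ?_ ?_ ?_ ?_ ?_
      · simp only [← mul_assoc] at this
        exact this
      · intro s hs t ht
        have h2 : ContinuousAt (fun x : ℂ × ℝ => (0 : ℂ) + x.2 * (x.1 - 0)) (s, t) := by
          fun_prop
        exact ContinuousAt.comp (f := fun x : ℂ × ℝ => (0 : ℂ) + x.2 * (x.1 - 0))
          (x := (s, t)) (hcc _).continuousAt h2
      · intro s hs t ht
        have h2 : ContinuousAt (fun x : ℂ × ℝ => (0 : ℂ) + x.2 * (x.1 - 0)) (s, t) := by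
          fun_prop
        exact (ContinuousAt.comp (f := fun x : ℂ × ℝ => (0 : ℂ) + x.2 * (x.1 - 0))
          (x := (s, t)) (g := fun s => X (cc p R s)) (hXc _ (uu_mul hs ht)).continuousAt h2).sub
          continuousAt_const
      · intro s hs t ht
        have h2 : ContinuousAt (fun x : ℂ × ℝ => (0 : ℂ) + x.2 * (x.1 - 0)) (s, t) := by
          fun_prop
        exact (ContinuousAt.comp (f := fun x : ℂ × ℝ => (0 : ℂ) + x.2 * (x.1 - 0))
          (x := (s, t)) (g := cd R) (cd_diff R _).continuousAt h2).mul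
          (continuousAt_fst.sub continuousAt_const)
      · intro s hs t ht
        exact DifferentiableAt.comp (f := fun s : ℂ => (0 : ℂ) + t * (s - 0)) s (hcc _)
          (by fun_prop)
      · intro s hs t ht
        exact (DifferentiableAt.comp (f := fun s : ℂ => (0 : ℂ) + t * (s - 0))
          (g := fun s => X (cc p R s)) s (hXc _ (uu_mul hs ht)) (by fun_prop)).sub_const b
      · intro s hs t ht
        exact (DifferentiableAt.comp (f := fun s : ℂ => (0 : ℂ) + t * (s - 0))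
          (g := cd R) s (cd_diff R _) (by fun_prop)).mul (by fun_prop)
  -- it vanishes on a real interval
  have hAreal : ∀ x : ℝ, |x| < Real.pi / 2 → A x = 0 := by
    intro x hx
    have hre1 : ∀ t ∈ Icc (0 : ℝ) 1, -ℓ < (cc p R ((t * x : ℝ) : ℂ)).re := by
      intro t ht
      rw [hp, hR]
      refine cc_re hρ (lt_of_le_of_lt ?_ hx)
      rw [abs_mul, abs_of_nonneg ht.1]
      exact mul_le_of_le_one_left (abs_nonneg _) ht.2
    have hrex : -ℓ < (cc p R (x : ℂ)).re := by
      have := hre1 1 ⟨zero_le_one, le_rfl⟩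
      rwa [one_mul] at this
    obtain ⟨g, hg⟩ : ∃ g : ℂ → ℂ, g = fun ω => kz a φ ω (φ (exp (cc p R x))) (Fc φ ω - b) :=
      ⟨_, rfl⟩
    have hgd : DifferentiableOn ℂ g (Strip ℓ) := by
      rw [hg]
      intro ω hω
      have h1 : DifferentiableAt ℂ (fun q : ℂ × ℂ × ℂ => kz a φ q.1 q.2.1 q.2.2)
          (ω, φ (exp (cc p R x)), Fc φ ω - b) :=
        kz_diff hkap hφ (p := (ω, φ (exp (cc p R x)), Fc φ ω - b)) hω.2
      have h2 : DifferentiableAt ℂ (fun ω => (ω, φ (exp (cc p R x)), Fc φ ω - b)) ω :=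
        differentiableAt_id.prodMk ((differentiableAt_const _).prodMk
          ((fc_diff hφ hω.1).sub_const b))
      exact (DifferentiableAt.comp (f := fun ω => (ω, φ (exp (cc p R x)), Fc φ ω - b)) ω
        h1 h2).differentiableWithinAt
    have h0S : (0 : ℂ) ∈ Strip ℓ := by
      refine ⟨?_, ?_⟩
      · show -ℓ < (0 : ℂ).re
        rw [zero_re]
        linarith
      · show (0 : ℂ).re < ℓ
        rw [zero_re]
        exact hℓ
    have hder := (hSeg (Strip ℓ) g (strip_open ℓ) (strip_convex ℓ) hgd).2 0 h0S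
    have hV1 := hV (cc p R x) hrex (hcre _ (uu_real x))
    have hV2 : (fun ω => ker a φ ω (cc p R x) (Fc φ ω - b)) = g := by
      rw [hg]
      rfl
    rw [hV2] at hV1
    have hX1 : X (cc p R x) = Fc φ (cc p R x) := hXF _ (hcm _ (uu_real x)).1 hrex
    -- the integral along the arc
    have hS : ∀ t ∈ Icc (0 : ℝ) 1, cc p R ((t : ℂ) * x) ∈ Strip ℓ := by
      intro t ht
      have h1 := hre1 t ht
      have h2 := hcre _ (uu_real (t * x))
      rw [ofReal_mul] at h1 h2
      exact ⟨h1, h2.trans hℓ⟩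
    have hftc : ∫ t in (0 : ℝ)..1, g (cc p R ((t : ℂ) * x)) * (cd R ((t : ℂ) * x) * x) =
        seg g 0 (cc p R ((1 : ℝ) * x)) - seg g 0 (cc p R (((0 : ℝ) : ℂ) * x)) := by
      refine intervalIntegral.integral_eq_sub_of_hasDerivAt
        (f := fun t : ℝ => seg g 0 (cc p R ((t : ℂ) * x)))
        (f' := fun t : ℝ => g (cc p R ((t : ℂ) * x)) * (cd R ((t : ℂ) * x) * x)) ?_ ?_
      · intro t ht
        rw [uIcc_of_le zero_le_one] at ht
        have h1 := hder _ (hS t ht)
        have h2 : HasDerivAt (fun τ : ℂ => cc p R (τ * x)) (cd R ((t : ℂ) * x) * x) (t : ℂ) := by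
          have h3 : HasDerivAt (fun τ : ℂ => τ * (x : ℂ)) (x : ℂ) (t : ℂ) := by
            simpa using (hasDerivAt_id (t : ℂ)).mul_const (x : ℂ)
          exact HasDerivAt.comp (h₂ := cc p R) (h := fun τ : ℂ => τ * (x : ℂ)) (t : ℂ)
            (cc_deriv p R ((t : ℂ) * x)) h3
        have h4 := HasDerivAt.comp (t : ℂ) h1 h2
        exact h4.comp_ofReal
      · apply ContinuousOn.intervalIntegrable
        rw [uIcc_of_le zero_le_one]
        intro t ht
        have h1 : ContinuousAt g (cc p R ((t : ℂ) * x)) :=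
          (hgd.differentiableAt ((strip_open ℓ).mem_nhds (hS t ht))).continuousAt
        have h2 : ContinuousAt (fun t : ℝ => cc p R ((t : ℂ) * x)) t :=
          ContinuousAt.comp (f := fun t : ℝ => (t : ℂ) * x) (hcc _).continuousAt (by fun_prop)
        have h3 : ContinuousAt (fun t : ℝ => cd R ((t : ℂ) * x)) t :=
          ContinuousAt.comp (f := fun t : ℝ => (t : ℂ) * x) (cd_diff R _).continuousAt
            (by fun_prop)
        exact ((ContinuousAt.comp (f := fun t : ℝ => cc p R ((t : ℂ) * x)) h1 h2).mul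
          (h3.mul continuousAt_const)).continuousWithinAt
    have hseg2 : seg (hh a φ X b p R (φ (exp (cc p R x)))) 0 x =
        ∫ t in (0 : ℝ)..1, g (cc p R ((t : ℂ) * x)) * (cd R ((t : ℂ) * x) * x) := by
      unfold seg
      refine intervalIntegral.integral_congr fun t ht => ?_
      rw [uIcc_of_le zero_le_one] at ht
      have e1 : (0 : ℂ) + t * ((x : ℂ) - 0) = (t : ℂ) * x := by ring
      have e2 : X (cc p R ((t : ℂ) * x)) = Fc φ (cc p R ((t : ℂ) * x)) := by
        have h1 := (hcm _ (uu_real (t * x))).1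
        rw [ofReal_mul] at h1
        exact hXF _ h1 (hS t ht).1
      rw [e1, hg]
      unfold hh
      rw [e2]
      ring
    rw [ofReal_one, one_mul, ofReal_zero, zero_mul] at hftc
    rw [hA]
    simp only
    rw [hseg2, hftc, ← hg, hX1, hV1]
    ring
  -- identity theorem
  have hA0 : EqOn A 0 UU := by
    have han : AnalyticOnNhd ℂ A UU := hAd.analyticOnNhd uu_open
    refine han.eqOn_zero_of_preconnected_of_frequently_eq_zero uu_convex.isPreconnected h0U ?_
    have h1 : Tendsto (fun x : ℝ => (x : ℂ)) (𝓝[≠] 0) (𝓝[≠] 0) := by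
      rw [tendsto_nhdsWithin_iff]
      refine ⟨?_, ?_⟩
      · have : Tendsto (fun x : ℝ => (x : ℂ)) (𝓝 0) (𝓝 ((0 : ℝ) : ℂ)) :=
          continuous_ofReal.continuousAt
        rw [ofReal_zero] at this
        exact this.mono_left nhdsWithin_le_nhds
      · filter_upwards [self_mem_nhdsWithin] with x hx
        simpa using hx
    refine h1.frequently ?_
    apply Filter.Eventually.frequently
    apply Filter.Eventually.filter_mono nhdsWithin_le_nhds
    have h2 : ∀ᶠ x : ℝ in 𝓝 0, |x| < Real.pi / 2 := by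
      have h3 : Tendsto (fun x : ℝ => |x|) (𝓝 0) (𝓝 0) := by
        have := continuous_abs.tendsto (0 : ℝ)
        rwa [abs_zero] at this
      exact h3.eventually (gt_mem_nhds (by positivity))
    filter_upwards [h2] with x hx using hAreal x hx
  -- the loop integrals vanish
  obtain ⟨N, hN⟩ : ∃ N : ℂ → ℂ, N = fun z => ∫ θ in (0 : ℝ)..2 * Real.pi, hh a φ X b p R z θ :=
    ⟨_, rfl⟩
  have hN0 : ∀ s : ℝ, N (φ (exp (cc p R s))) = 0 := by
    intro s
    have hs := uu_real s
    have hs2 : (s : ℂ) + 2 * Real.pi ∈ UU := by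
      have := uu_real (s + 2 * Real.pi)
      push_cast at this
      exact this
    have h1 := hA0 hs
    have h2 := hA0 hs2
    rw [hA] at h1 h2
    simp only [Pi.zero_apply, cc_per] at h1 h2
    have h3 := (hSeg UU _ uu_open uu_convex (hhd (φ (exp (cc p R s))))).1 0 h0U _ hs _ hs2
    have h4 : seg (hh a φ X b p R (φ (exp (cc p R s)))) s ((s : ℂ) + 2 * Real.pi) = 0 := by
      linear_combination h3 - h2 + h1
    rw [seg_circle] at h4
    rw [hN]
    exact h4
  have hNd : Differentiable ℂ N := by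
    have e : N = fun z => (2 * Real.pi : ℂ) * ∫ t in (0 : ℝ)..1,
        kz a φ (cc p R ((2 * Real.pi * t : ℝ) : ℂ)) z (X (cc p R ((2 * Real.pi * t : ℝ) : ℂ)) - b) *
          cd R ((2 * Real.pi * t : ℝ) : ℂ) := by
      rw [hN]
      funext z
      have e2 := intervalIntegral.integral_comp_mul_left (a := 0) (b := 1)
        (fun θ : ℝ => hh a φ X b p R z (θ : ℂ)) (c := 2 * Real.pi) (by positivity)
      rw [mul_zero, mul_one] at e2
      have e3 : ∫ t in (0 : ℝ)..1, kz a φ (cc p R ((2 * Real.pi * t : ℝ) : ℂ)) z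
          (X (cc p R ((2 * Real.pi * t : ℝ) : ℂ)) - b) * cd R ((2 * Real.pi * t : ℝ) : ℂ) =
          ∫ t in (0 : ℝ)..1, hh a φ X b p R z ((2 * Real.pi * t : ℝ) : ℂ) := rfl
      rw [e3, e2, real_smul]
      push_cast
      have hpi : (2 * Real.pi : ℂ) ≠ 0 := by
        have : (Real.pi : ℂ) ≠ 0 := by exact_mod_cast Real.pi_ne_zero
        simp [this]
      rw [← mul_assoc, mul_inv_cancel₀ hpi, one_mul]
    rw [e]
    refine Differentiable.const_mul ?_ _
    rw [← differentiableOn_univ]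
    refine par_ker hPar hkap hφ isOpen_univ (fun _ t => cc p R ((2 * Real.pi * t : ℝ) : ℂ))
      (fun _ t => X (cc p R ((2 * Real.pi * t : ℝ) : ℂ)) - b)
      (fun _ t => cd R ((2 * Real.pi * t : ℝ) : ℂ)) (fun z => z)
      (fun s _ t _ => (hcre _ (uu_real _)).trans hℓ) (fun s _ => differentiableAt_id)
      ?_ ?_ ?_ ?_ ?_ ?_
    · intro s _ t _
      have h2 : ContinuousAt (fun x : ℂ × ℝ => ((2 * Real.pi * x.2 : ℝ) : ℂ)) (s, t) := by
        fun_prop
      exact ContinuousAt.comp (f := fun x : ℂ × ℝ => ((2 * Real.pi * x.2 : ℝ) : ℂ))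
        (x := (s, t)) (hcc _).continuousAt h2
    · intro s _ t _
      have h2 : ContinuousAt (fun x : ℂ × ℝ => ((2 * Real.pi * x.2 : ℝ) : ℂ)) (s, t) := by
        fun_prop
      exact (ContinuousAt.comp (f := fun x : ℂ × ℝ => ((2 * Real.pi * x.2 : ℝ) : ℂ))
        (x := (s, t)) (g := fun s => X (cc p R s)) (hXc _ (uu_real _)).continuousAt h2).sub
        continuousAt_const
    · intro s _ t _
      have h2 : ContinuousAt (fun x : ℂ × ℝ => ((2 * Real.pi * x.2 : ℝ) : ℂ)) (s, t) := by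
        fun_prop
      exact ContinuousAt.comp (f := fun x : ℂ × ℝ => ((2 * Real.pi * x.2 : ℝ) : ℂ))
        (x := (s, t)) (g := cd R) (cd_diff R _).continuousAt h2
    · intro s _ t _
      exact differentiableAt_const _
    · intro s _ t _
      exact differentiableAt_const _
    · intro s _ t _
      exact differentiableAt_const _
  have hNz : N = 0 := by
    have han : AnalyticOnNhd ℂ N univ := (hNd.differentiableOn).analyticOnNhd isOpen_univ
    have h1 : EqOn N 0 univ := by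
      refine han.eqOn_zero_of_preconnected_of_frequently_eq_zero isPreconnected_univ
        (mem_univ (φ (exp (cc p R ((0 : ℝ) : ℂ))))) ?_
      have hcont : ContinuousAt (fun x : ℝ => φ (exp (cc p R (x : ℂ)))) 0 :=
        ContinuousAt.comp (f := fun x : ℝ => (x : ℂ)) (g := fun s => φ (exp (cc p R s)))
          (hψ _ (uu_real 0)).continuousAt continuous_ofReal.continuousAt
      have hne : ∀ᶠ x : ℝ in 𝓝[≠] 0,
          φ (exp (cc p R (x : ℂ))) ≠ φ (exp (cc p R ((0 : ℝ) : ℂ))) := by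
        have h2 : ∀ᶠ x : ℝ in 𝓝[≠] 0, |x| < 1 := by
          apply Filter.Eventually.filter_mono nhdsWithin_le_nhds
          have h3 : Tendsto (fun x : ℝ => |x|) (𝓝 0) (𝓝 0) := by
            have := continuous_abs.tendsto (0 : ℝ)
            rwa [abs_zero] at this
          exact h3.eventually (gt_mem_nhds one_pos)
        have h3 : ∀ᶠ x : ℝ in 𝓝[≠] 0, ‖cc p R (x : ℂ) - cc p R ((0 : ℝ) : ℂ)‖ < 1 := by
          apply Filter.Eventually.filter_mono nhdsWithin_le_nhds
          have h4 : ContinuousAt (fun x : ℝ => ‖cc p R (x : ℂ) - cc p R ((0 : ℝ) : ℂ)‖) 0 :=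
            ((ContinuousAt.comp (f := fun x : ℝ => (x : ℂ)) (g := cc p R) (hcc _).continuousAt
              continuous_ofReal.continuousAt).sub continuousAt_const).norm
          have h5 : Tendsto (fun x : ℝ => ‖cc p R (x : ℂ) - cc p R ((0 : ℝ) : ℂ)‖) (𝓝 0)
              (𝓝 0) := by
            have := h4.tendsto
            rwa [sub_self, norm_zero] at this
          exact h5.eventually (gt_mem_nhds one_pos)
        filter_upwards [h2, h3, self_mem_nhdsWithin] with x hx1 hx2 hx0 heq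
        have h6 := hinj (exp_mem' (hcre _ (uu_real x))) (exp_mem' (hcre _ (uu_real 0))) heq
        rw [exp_eq_exp_iff_exists_int] at h6
        obtain ⟨n, hn⟩ := h6
        have hn0 : n = 0 := by
          by_contra hn0
          have h7 : ‖cc p R (x : ℂ) - cc p R ((0 : ℝ) : ℂ)‖ = |(n : ℝ)| * (2 * Real.pi) := by
            rw [hn, add_sub_cancel_left, norm_mul, norm_mul, norm_mul, norm_I, norm_intCast,
              Complex.norm_real, Real.norm_of_nonneg Real.pi_pos.le]
            simp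
          rw [h7] at hx2
          have h8 : (1 : ℝ) ≤ |(n : ℝ)| := by
            have : 1 ≤ |n| := Int.one_le_abs hn0
            exact_mod_cast this
          have h9 := Real.pi_gt_three
          nlinarith
        rw [hn0, Int.cast_zero, zero_mul, add_zero] at hn
        have h10 : exp ((x : ℂ) * I) = 1 := by
          unfold cc at hn
          have h11 : (R : ℂ) * exp ((x : ℂ) * I) = R * exp (((0 : ℝ) : ℂ) * I) :=
            add_left_cancel hn
          have h12 := mul_left_cancel₀ (by exact_mod_cast hR0.ne') h11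
          rw [h12, ofReal_zero, zero_mul, exp_zero]
        rw [exp_eq_one_iff] at h10
        obtain ⟨m, hm⟩ := h10
        have h13 : x = m * (2 * Real.pi) := by
          have h14 : (x : ℂ) = m * (2 * Real.pi) := by
            have hI : (I : ℂ) ≠ 0 := I_ne_zero
            apply mul_right_cancel₀ hI
            rw [hm]
            ring
          exact_mod_cast h14
        have hm0 : m = 0 := by
          by_contra hm0
          have h8 : (1 : ℝ) ≤ |(m : ℝ)| := by
            have : 1 ≤ |m| := Int.one_le_abs hm0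
            exact_mod_cast this
          have h9 := Real.pi_gt_three
          rw [h13, abs_mul, abs_of_pos (by positivity : (0 : ℝ) < 2 * Real.pi)] at hx1
          nlinarith
        rw [hm0] at h13
        exact hx0 (by simpa using h13)
      have h1 : Tendsto (fun x : ℝ => φ (exp (cc p R (x : ℂ)))) (𝓝[≠] 0)
          (𝓝[≠] (φ (exp (cc p R ((0 : ℝ) : ℂ))))) := by
        rw [tendsto_nhdsWithin_iff]
        exact ⟨hcont.tendsto.mono_left nhdsWithin_le_nhds, hne⟩
      refine h1.frequently ?_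
      apply Filter.Eventually.frequently
      exact Filter.Eventually.of_forall fun x => hN0 x
    funext z
    exact h1 (mem_univ z)
  rw [circle_eq]
  have := congrFun hNz z0
  rw [hN] at this
  exact this

end Pool.Agent.Y448.SC
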